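import Pool.Agent.Helper1.RK.StD

set_option autoImplicit false

namespace Pool.Agent.Helper2.RK

open Pool.Agent.Helper1.RK

open TensorProduct KaehlerDifferential in
theorem pDXT : StDXT := by
  intro k L _ _ _ _ halg
  have hsep : Algebra.IsSeparable k L := by
    have := halg
    infer_instance
  have het : Algebra.FormallyEtale k L := Algebra.FormallyEtale.of_isSeparable k L
  refine ⟨fun d => ?_, fun d' hd' => ?_⟩
  · let d1 : Derivation ℤ k L := (Algebra.linearMap k L).compDer d
    let f : L ⊗[k] Ω[k⁄ℤ] →ₗ[L] L := (d1.liftKaehlerDifferential).liftBaseChange L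
    let g : Ω[L⁄ℤ] →ₗ[L] L :=
      f ∘ₗ (KaehlerDifferential.tensorKaehlerEquivOfFormallyEtale ℤ k L).symm.toLinearMap
    refine ⟨g.compDer (KaehlerDifferential.D ℤ L), fun x => ?_⟩
    have h1 : (KaehlerDifferential.tensorKaehlerEquivOfFormallyEtale ℤ k L).symm
        (D ℤ L (algebraMap k L x)) = 1 ⊗ₜ D ℤ k x :=
      KaehlerDifferential.tensorKaehlerEquivOfFormallyEtale_symm_D_algebraMap ℤ k L x
    change f ((KaehlerDifferential.tensorKaehlerEquivOfFormallyEtale ℤ k L).symm
        (D ℤ L (algebraMap k L x))) = _
    rw [h1]
    simp only [f, LinearMap.liftBaseChange_tmul, one_smul]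
    rw [Derivation.liftKaehlerDifferential_comp_D]
    rfl
  · let D' : Derivation k L L := 
      { toFun := d'
        map_add' := fun a b => map_add d' a b
        map_smul' := fun c x => by
          rw [Algebra.smul_def, Derivation.leibniz, hd', smul_zero, add_zero, RingHom.id_apply,
            smul_eq_mul, Algebra.smul_def]
        map_one_eq_zero' := d'.map_one_eq_zero
        leibniz' := fun a b => d'.leibniz a b }
    have hs : Subsingleton (Ω[L⁄k]) := inferInstance
    have h0 : D' = 0 := by
      rw [← D'.liftKaehlerDifferential_comp]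
      ext x
      change D'.liftKaehlerDifferential (D k L x) = 0
      rw [Subsingleton.elim (D k L x) 0, map_zero]
    ext x
    exact congrArg (fun F : Derivation k L L => F x) h0

end Pool.Agent.Helper2.RK
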