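import Pool.Agent.Helper1.RK.StE

set_option autoImplicit false

namespace Pool.Agent.Helper2.RK

open Pool.Agent.Helper1.RK

theorem pUFX (h1 : StVFR) (h2 : StUMN) : StUFX := by
  intro F _ _ r T a b hr hdisc u hu i
  obtain ⟨K, _, _, _, X, pd, deg, lc, ψ, hX, hC, hVF⟩ := h1 F (Fin r ⊕ T)
  -- three indices, the first one is `i`
  obtain ⟨e, he, he0⟩ : ∃ e : Fin 3 → Fin r, Function.Injective e ∧ e 0 = i := by
    refine ⟨fun k => Equiv.swap (Fin.castLE hr 0) i (Fin.castLE hr k), ?_, ?_⟩
    · exact (Equiv.injective _).comp (Fin.castLE_injective hr)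
    · exact Equiv.swap_apply_left _ _
  have hψv : ∀ k, ψ (rv F (Sum.inl k)) = X (Sum.inl k) := fun k => hX _
  have hψc : ∀ c, ψ (rc _ c) = algebraMap F K c := fun c => hC c
  have hmap : ∀ k, ψ (((rv F (Sum.inl k)) ^ 3 + rc _ (a k) * rv F (Sum.inl k) + rc _ (b k)) *
      (u k ^ 3 + rc _ (a k) * u k + rc _ (b k))) =
      (X (Sum.inl k) ^ 3 + algebraMap F K (a k) * X (Sum.inl k) + algebraMap F K (b k)) *
      (ψ (u k) ^ 3 + algebraMap F K (a k) * ψ (u k) + algebraMap F K (b k)) := by
    intro k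
    simp only [map_mul, map_add, map_pow, hψv, hψc]
  have hS : Setup F K (Fin r ⊕ T) X pd (fun _ => ∅) (fun k => Sum.inl (e k))
      (fun k => algebraMap F K (a (e k))) (fun k => algebraMap F K (b (e k)))
      (fun k => ψ (u (e k))) := by
    refine ⟨?_, ?_, ?_, ?_, ?_, ?_, ?_, ?_⟩
    · intro i j _ z hz
      exact absurd hz (Finset.notMem_empty z)
    · intro i j
      exact Finset.notMem_empty _
    · intro i j hij h
      exact hij (he (Sum.inl_injective h))
    · intro i z _
      exact hVF.pd_const z _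
    · intro i z _
      exact hVF.pd_const z _
    · intro k hk
      apply hdisc (e k)
      apply (algebraMap F K).injective
      rw [map_zero, ← hk]
      simp only [map_add, map_mul, map_pow, map_ofNat]
    · intro k hk
      obtain ⟨j, hj⟩ : ∃ j : Fin 3, k ≠ j := by
        fin_cases k
        · exact ⟨1, by decide⟩
        · exact ⟨0, by decide⟩
        · exact ⟨0, by decide⟩
      have h3 := (hu (e k) (e j) (fun h => hj (he h))).1
      have h4 : u (e k) ^ 3 + rc _ (a (e k)) * u (e k) + rc _ (b (e k)) ≠ 0 :=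
        right_ne_zero_of_mul (left_ne_zero_of_mul h3)
      apply h4
      apply ψ.injective
      rw [map_zero, ← hk]
      simp only [map_add, map_mul, map_pow, hψc]
    · intro k j hkj
      have h3 := (hu (e k) (e j) (fun h => hkj (he h))).2
      have h4 := h3.map ψ
      rw [map_mul, hmap, hmap] at h4
      exact h4
  obtain ⟨c, hc0, hc⟩ := h2 F K (Fin r ⊕ T) X pd deg lc (fun _ => ∅) (fun k => Sum.inl (e k))
    _ _ _ hVF hS 0
  refine ⟨c, hc0, ?_⟩
  have h5 := hc.map ψ.symm
  simp only [he0] at h5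
  rw [← hmap i, ← hψc c, ← map_mul, RingEquiv.symm_apply_apply] at h5
  exact h5

end Pool.Agent.Helper2.RK
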